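import Pool.Agent.U697.A48c

/-!
# Q1: `∑_{k<p} C(4k,2k+1) C(2k,k) / 48^k ≡ 0 (mod p²)` for every prime `p > 3`
-/

set_option autoImplicit false

namespace Pool.Agent.Results.MP_37e900_nt.VanishingQOne

open Finset

/-- `A_p = ∑_{k<p} C(4k,2k+1) C(2k,k) / 48^k` -/
def A (p : ℕ) : ℚ := ∑ k ∈ range p, ((4 * k).choose (2 * k + 1) : ℚ) * ((2 * k).choose k : ℚ) / 48 ^ k

/-- `u ≡ v` modulo `p^r`: the difference is `p^r` times a fraction whose denominator is not divisible by `p`. -/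
def Cong (p r : ℕ) (u v : ℚ) : Prop := ∃ (n : ℤ) (d : ℕ), ¬ p ∣ d ∧ u - v = (p : ℚ) ^ r * (n / d)

/-- **Q1.** For every prime `p > 3`, `A_p ≡ 0 (mod p²)`. -/
theorem result : ∀ p : ℕ, p.Prime → 3 < p → Cong p 2 (A p) 0 := by
  intro p hp h3
  have : Fact p.Prime := ⟨hp⟩
  have h1 := Pool.Agent.U697.A48.AA_zero (p := p) h3
  have e : Pool.Agent.U697.A48.AA p 0 = A p := by
    unfold Pool.Agent.U697.A48.AA A
    exact sum_congr rfl fun k _ => Pool.Agent.U697.A48.tm_at_zero k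
  rw [e] at h1
  have h2 := Pool.Agent.R439.PL.den_of_I h1.2.2
  refine ⟨((A p - 0) / (p : ℚ) ^ 2).num, ((A p - 0) / (p : ℚ) ^ 2).den, h2, ?_⟩
  rw [Rat.num_div_den, mul_div_cancel₀]
  have : (p : ℚ) ≠ 0 := by exact_mod_cast hp.ne_zero
  exact pow_ne_zero _ this

end Pool.Agent.Results.MP_37e900_nt.VanishingQOne
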